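import Pool.Agent.AND2B.Stmts

/-!
# AND2B: WLP, MSW (the event `WL`)
-/

set_option autoImplicit false

open MeasureTheory ProbabilityTheory

open scoped BigOperators NNReal ENNReal Matrix Topology

noncomputable section

namespace Pool.Agent.AND2B.H99

open Pool.Agent.Anderson hiding box mem_box card_box
open Pool.Agent.Loc Pool.Agent.Mob Pool.Agent.Helper54.Bal
  Pool.Agent.Helper96.EXP Pool.Agent.BED
open Pool.Agent.AND2B

variable {d M : ℕ} [NeZero M]

lemma hr_mul (V : Tor d M → ℝ) (E : ℝ) (u : Tor d M → ℂ) (x : Tor d M) :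
    ∑ y, (Hr V E x y : ℂ) * u y =
      ∑ y, (adj d M x y : ℂ) * u y + ((V x - E : ℝ) : ℂ) * u x := by
  have h : ∀ y, (Hr V E x y : ℂ) * u y = (adj d M x y : ℂ) * u y +
      (if x = y then ((V x - E : ℝ) : ℂ) * u y else 0) := by
    intro y
    unfold Hr
    rw [Matrix.add_apply, Matrix.diagonal_apply]
    split_ifs with h
    · push_cast
      ring
    · push_cast
      ring
  rw [Finset.sum_congr rfl fun y _ => h y, Finset.sum_add_distrib, Finset.sum_ite_eq]
  simp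

lemma hr_upd (V : Tor d M → ℝ) (E : ℝ) (u : Tor d M → ℂ) (a : Tor d M) (t : ℝ) (x : Tor d M)
    (hx : x ≠ a) : ∑ y, (Hr (Function.update V a t) E x y : ℂ) * u y =
      ∑ y, (Hr V E x y : ℂ) * u y := by
  rw [hr_mul, hr_mul, Function.update_of_ne hx]

lemma closed_WLD (E L : ℝ) (D : Finset (Tor d M)) : IsClosed {V : Tor d M → ℝ | WLD E L V D} := by
  have h : {V : Tor d M → ℝ | WLD E L V D} = ⋂ (u : Tor d M → ℂ) (_ : ∀ x, x ∉ D → u x = 0),
      {V | ∑ x ∈ D, ‖u x‖ ^ 2 ≤ L ^ 2 * ∑ x ∈ D, ‖∑ y, (Hr V E x y : ℂ) * u y‖ ^ 2} := by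
    ext V
    simp only [Set.mem_setOf_eq, Set.mem_iInter]
    rfl
  rw [h]
  refine isClosed_iInter fun u => isClosed_iInter fun _ => ?_
  refine isClosed_le continuous_const ?_
  simp only [hr_mul]
  fun_prop

lemma closed_WL (E L : ℝ) : IsClosed {V : Tor d M → ℝ | WL E L V} := by
  have h : {V : Tor d M → ℝ | WL E L V} = ⋂ D : Finset (Tor d M), {V | WLD E L V D} := by
    ext V
    simp only [Set.mem_setOf_eq, Set.mem_iInter]
    rfl
  rw [h]
  exact isClosed_iInter fun D => closed_WLD E L D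

theorem msw : MswStmt := by
  intro d M _ E L
  exact (closed_WL E L).measurableSet

lemma wld_mono {E L L' : ℝ} {V : Tor d M → ℝ} {D : Finset (Tor d M)} (h0 : 0 ≤ L) (h : L ≤ L')
    (hw : WLD E L V D) : WLD E L' V D := by
  intro u hu
  refine (hw u hu).trans ?_
  exact mul_le_mul_of_nonneg_right (pow_le_pow_left₀ h0 h 2)
    (Finset.sum_nonneg fun _ _ => sq_nonneg _)

/-- no kernel on `D` -/
def NK (E : ℝ) (V : Tor d M → ℝ) (D : Finset (Tor d M)) : Prop :=
  ∀ u : Tor d M → ℂ, (∀ x, x ∉ D → u x = 0) → (∀ x ∈ D, ∑ y, (Hr V E x y : ℂ) * u y = 0) → u = 0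

/-- the linear map -/
def lmp (E : ℝ) (V : Tor d M → ℝ) (D : Finset (Tor d M)) : (Tor d M → ℂ) →ₗ[ℂ] (Tor d M → ℂ) where
  toFun u x := if x ∈ D then ∑ y ∈ D, (Hr V E x y : ℂ) * u y else u x
  map_add' u v := by
    ext x
    by_cases hx : x ∈ D
    · simp [hx, mul_add, Finset.sum_add_distrib]
    · simp [hx]
  map_smul' c u := by
    ext x
    by_cases hx : x ∈ D
    · simp only [hx, if_true, Pi.smul_apply, smul_eq_mul, RingHom.id_apply, Finset.mul_sum]
      refine Finset.sum_congr rfl fun y _ => by ring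
    · simp [hx]

lemma sum_D (E : ℝ) (V : Tor d M → ℝ) (D : Finset (Tor d M)) (u : Tor d M → ℂ)
    (hu : ∀ x, x ∉ D → u x = 0) (x : Tor d M) :
    ∑ y ∈ D, (Hr V E x y : ℂ) * u y = ∑ y, (Hr V E x y : ℂ) * u y := by
  refine Finset.sum_subset (Finset.subset_univ D) ?_
  intro y _ hy
  rw [hu y hy, mul_zero]

lemma nk_wld (E : ℝ) (V : Tor d M → ℝ) (D : Finset (Tor d M)) (h : NK E V D) :
    ∃ L : ℕ, WLD E L V D := by
  have hker : LinearMap.ker (lmp E V D) = ⊥ := by
    rw [LinearMap.ker_eq_bot']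
    intro u hu
    have h1 : ∀ x, x ∉ D → u x = 0 := by
      intro x hx
      have := congrFun hu x
      simpa [lmp, hx] using this
    refine h u h1 fun x hx => ?_
    rw [← sum_D E V D u h1]
    have := congrFun hu x
    simpa [lmp, hx] using this
  obtain ⟨K, -, hK⟩ := LinearMap.exists_antilipschitzWith (lmp E V D) hker
  obtain ⟨L, hL⟩ := exists_nat_ge (((D.card : ℝ) + 1) * ((K : ℝ) + 1))
  refine ⟨L, fun u hu => ?_⟩
  have h1 : ‖u‖ ≤ K * ‖lmp E V D u‖ := by
    have := hK.le_mul_dist u 0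
    simpa [dist_zero_right] using this
  set R := ∑ x ∈ D, ‖∑ y, (Hr V E x y : ℂ) * u y‖ ^ 2 with hR
  have hR0 : 0 ≤ R := Finset.sum_nonneg fun _ _ => sq_nonneg _
  have h2 : ‖lmp E V D u‖ ≤ Real.sqrt R := by
    refine (pi_norm_le_iff_of_nonneg (Real.sqrt_nonneg _)).2 fun x => ?_
    by_cases hx : x ∈ D
    · have h3 : lmp E V D u x = ∑ y, (Hr V E x y : ℂ) * u y := by
        rw [← sum_D E V D u hu]
        simp [lmp, hx]
      rw [h3]
      refine Real.le_sqrt_of_sq_le ?_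
      exact Finset.single_le_sum (f := fun x => ‖∑ y, (Hr V E x y : ℂ) * u y‖ ^ 2)
        (fun _ _ => sq_nonneg _) hx
    · have h3 : lmp E V D u x = 0 := by
        simp [lmp, hx, hu x hx]
      rw [h3, norm_zero]
      exact Real.sqrt_nonneg _
  have h4 : ∀ x ∈ D, ‖u x‖ ^ 2 ≤ (K : ℝ) ^ 2 * R := by
    intro x _
    have h5 : ‖u x‖ ≤ K * Real.sqrt R :=
      (norm_le_pi_norm u x).trans (h1.trans (mul_le_mul_of_nonneg_left h2 K.coe_nonneg))
    calc ‖u x‖ ^ 2 ≤ (K * Real.sqrt R) ^ 2 := pow_le_pow_left₀ (norm_nonneg _) h5 2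
      _ = (K : ℝ) ^ 2 * R := by rw [mul_pow, Real.sq_sqrt hR0]
  calc ∑ x ∈ D, ‖u x‖ ^ 2 ≤ ∑ _x ∈ D, (K : ℝ) ^ 2 * R := Finset.sum_le_sum h4
    _ = D.card * (K : ℝ) ^ 2 * R := by rw [Finset.sum_const, nsmul_eq_mul]; ring
    _ ≤ (L : ℝ) ^ 2 * R := by
        refine mul_le_mul_of_nonneg_right ?_ hR0
        have hc : (0 : ℝ) ≤ D.card := Nat.cast_nonneg _
        have hk : (0 : ℝ) ≤ K := K.coe_nonneg
        have h6 : (((D.card : ℝ) + 1) * ((K : ℝ) + 1)) ^ 2 ≤ (L : ℝ) ^ 2 :=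
          pow_le_pow_left₀ (by positivity) hL 2
        nlinarith [mul_nonneg hc hk, mul_nonneg hc (sq_nonneg (K : ℝ)),
          mul_nonneg (mul_nonneg hc hc) (sq_nonneg (K : ℝ)), mul_nonneg hc hc,
          mul_nonneg (mul_nonneg hc hc) hk]

/-- the singular set -/
def Sg (E : ℝ) (D : Finset (Tor d M)) : Set (Tor d M → ℝ) := {V | ∀ L : ℕ, ¬ WLD E L V D}

lemma sg_meas (E : ℝ) (D : Finset (Tor d M)) : MeasurableSet (Sg E D) := by
  have h : Sg E D = ⋂ L : ℕ, {V : Tor d M → ℝ | WLD E L V D}ᶜ := by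
    ext V
    simp [Sg]
  rw [h]
  exact MeasurableSet.iInter fun L => (closed_WLD E L D).measurableSet.compl

lemma sg_nk (E : ℝ) (D : Finset (Tor d M)) (V : Tor d M → ℝ) (h : V ∉ Sg E D) : NK E V D := by
  simp only [Sg, Set.mem_setOf_eq, not_forall, not_not] at h
  obtain ⟨L, hL⟩ := h
  intro u hu hk
  have h1 := hL u hu
  have h2 : ∑ x ∈ D, ‖∑ y, (Hr V E x y : ℂ) * u y‖ ^ 2 = 0 :=
    Finset.sum_eq_zero fun x hx => by rw [hk x hx]; simp
  rw [h2, mul_zero] at h1
  have h3 : ∑ x ∈ D, ‖u x‖ ^ 2 = 0 := le_antisymm h1 (Finset.sum_nonneg fun _ _ => sq_nonneg _)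
  have h4 := (Finset.sum_eq_zero_iff_of_nonneg fun _ _ => sq_nonneg _).1 h3
  funext x
  by_cases hx : x ∈ D
  · have := h4 x hx
    simpa using this
  · exact hu x hx

lemma nk_sg (E : ℝ) (D : Finset (Tor d M)) (V : Tor d M → ℝ) (h : V ∈ Sg E D) : ¬ NK E V D := by
  intro hn
  obtain ⟨L, hL⟩ := nk_wld E V D hn
  exact h L hL

lemma fib (E : ℝ) (D : Finset (Tor d M)) (a : Tor d M) (V : Tor d M → ℝ) :
    {t | Function.update V a t ∈ Sg E (insert a D) \ Sg E D}.Subsingleton := by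
  intro t₁ h₁ t₂ h₂
  have hn₁ := sg_nk E D _ h₁.2
  have hn₂ := sg_nk E D _ h₂.2
  have hk₁ := nk_sg E _ _ h₁.1
  have hk₂ := nk_sg E _ _ h₂.1
  unfold NK at hk₁ hk₂
  push Not at hk₁ hk₂
  obtain ⟨u₁, hs₁, he₁, hne₁⟩ := hk₁
  obtain ⟨u₂, hs₂, he₂, hne₂⟩ := hk₂
  have ha₁ : u₁ a ≠ 0 := by
    intro h0
    refine hne₁ (hn₁ u₁ (fun x hx => ?_) fun x hx => he₁ x (Finset.mem_insert_of_mem hx))
    by_cases hxa : x = a
    · rw [hxa]; exact h0
    · exact hs₁ x (by simp [hxa, hx])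
  have ha₂ : u₂ a ≠ 0 := by
    intro h0
    refine hne₂ (hn₂ u₂ (fun x hx => ?_) fun x hx => he₂ x (Finset.mem_insert_of_mem hx))
    by_cases hxa : x = a
    · rw [hxa]; exact h0
    · exact hs₂ x (by simp [hxa, hx])
  by_cases haD : a ∈ D
  · exact absurd (hn₁ u₁ (fun x hx => hs₁ x (by
      rw [Finset.mem_insert, not_or]
      exact ⟨fun h => hx (h ▸ haD), hx⟩)) fun x hx => he₁ x (Finset.mem_insert_of_mem hx)) hne₁
  have hw : (fun x => u₂ a * u₁ x - u₁ a * u₂ x) = 0 := by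
    refine hn₁ _ (fun x hx => ?_) fun x hx => ?_
    · by_cases hxa : x = a
      · rw [hxa]; ring
      · rw [hs₁ x (by simp [hxa, hx]), hs₂ x (by simp [hxa, hx])]
        simp
    · have hxa : x ≠ a := fun h => haD (h ▸ hx)
      have e₁ := he₁ x (Finset.mem_insert_of_mem hx)
      have e₂ := he₂ x (Finset.mem_insert_of_mem hx)
      rw [hr_upd _ _ _ _ _ _ hxa] at e₁ e₂ ⊢
      have : ∑ y, (Hr V E x y : ℂ) * (u₂ a * u₁ y - u₁ a * u₂ y) =
          u₂ a * ∑ y, (Hr V E x y : ℂ) * u₁ y - u₁ a * ∑ y, (Hr V E x y : ℂ) * u₂ y := by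
        rw [Finset.mul_sum, Finset.mul_sum, ← Finset.sum_sub_distrib]
        refine Finset.sum_congr rfl fun y _ => by ring
      rw [this, e₁, e₂]
      simp
  have e₁ := he₁ a (Finset.mem_insert_self a D)
  have e₂ := he₂ a (Finset.mem_insert_self a D)
  rw [hr_mul, Function.update_self] at e₁ e₂
  have e₃ : ∑ y, (adj d M a y : ℂ) * (u₂ a * u₁ y - u₁ a * u₂ y) = 0 := by
    refine Finset.sum_eq_zero fun y _ => ?_
    have := congrFun hw y
    simp only [Pi.zero_apply] at this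
    rw [this, mul_zero]
  have e₄ : ∑ y, (adj d M a y : ℂ) * (u₂ a * u₁ y - u₁ a * u₂ y) =
      u₂ a * ∑ y, (adj d M a y : ℂ) * u₁ y - u₁ a * ∑ y, (adj d M a y : ℂ) * u₂ y := by
    rw [Finset.mul_sum, Finset.mul_sum, ← Finset.sum_sub_distrib]
    refine Finset.sum_congr rfl fun y _ => by ring
  rw [e₄] at e₃
  have e₅ : ((t₁ - E : ℝ) : ℂ) * (u₁ a * u₂ a) = ((t₂ - E : ℝ) : ℂ) * (u₁ a * u₂ a) := by
    linear_combination u₂ a * e₁ - u₁ a * e₂ - e₃
  have e₆ := mul_right_cancel₀ (mul_ne_zero ha₁ ha₂) e₅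
  have e₇ : t₁ - E = t₂ - E := by exact_mod_cast e₆
  linarith

lemma null_fib {ι : Type} [Fintype ι] [DecidableEq ι] (μ : ι → Measure ℝ) [∀ i, SigmaFinite (μ i)]
    (S : Set (ι → ℝ)) (hS : MeasurableSet S) (i : ι)
    (h : ∀ x : ι → ℝ, μ i {t | Function.update x i t ∈ S} = 0) : Measure.pi μ S = 0 := by
  have hf : Measurable (S.indicator (fun _ => (1 : ℝ≥0∞))) := measurable_const.indicator hS
  have h1 : Measure.pi μ S = ∫⁻ x, S.indicator (fun _ => (1 : ℝ≥0∞)) x ∂Measure.pi μ := by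
    rw [lintegral_indicator hS]
    simp
  rw [h1, lintegral_eq_lmarginal_univ (fun _ => 0), lmarginal_erase' _ hf (Finset.mem_univ i)]
  have h2 : (fun x => ∫⁻ xᵢ, S.indicator (fun _ => (1 : ℝ≥0∞)) (Function.update x i xᵢ) ∂μ i) =
      fun _ => 0 := by
    funext x
    have hm : MeasurableSet {t | Function.update x i t ∈ S} :=
      (measurable_update x) hS
    have h3 : (fun xᵢ => S.indicator (fun _ => (1 : ℝ≥0∞)) (Function.update x i xᵢ)) =
        {t | Function.update x i t ∈ S}.indicator fun _ => 1 := by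
      funext t
      by_cases ht : Function.update x i t ∈ S
      · rw [Set.indicator_of_mem ht, Set.indicator_of_mem (by exact ht)]
      · rw [Set.indicator_of_notMem ht, Set.indicator_of_notMem (by exact ht)]
    rw [h3, lintegral_indicator hm]
    simp [h x]
  rw [h2]
  unfold lmarginal
  simp

lemma sg_null (E : ℝ) (v : ℝ≥0) (hv : v ≠ 0) (D : Finset (Tor d M)) : gau d M v (Sg E D) = 0 := by
  classical
  induction D using Finset.induction_on with
  | empty =>
    have : Sg E (∅ : Finset (Tor d M)) = ∅ := by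
      ext V
      simp only [Sg, Set.mem_setOf_eq, Set.mem_empty_iff_false, iff_false, not_forall, not_not]
      exact ⟨0, fun u _ => by simp⟩
    rw [this, measure_empty]
  | insert a D _ ih =>
    have h1 : Sg E (insert a D) ⊆ (Sg E (insert a D) \ Sg E D) ∪ Sg E D := by
      intro V hV
      by_cases h : V ∈ Sg E D
      · exact Or.inr h
      · exact Or.inl ⟨hV, h⟩
    refine measure_mono_null h1 (measure_union_null ?_ ih)
    unfold gau
    have hna : NullSingletonClass (gaussianReal 0 v) := nullSingletonClass_gaussianReal hv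
    refine null_fib _ _ ((sg_meas E _).diff (sg_meas E _)) a fun V => ?_
    exact (fib E D a V).measure_zero _

theorem wlp : WlpStmt := by
  intro d M _ E δ v hv hδ
  have : IsProbabilityMeasure (gau d M v) := by
    unfold gau
    infer_instance
  set Bd : ℕ → Set (Tor d M → ℝ) := fun n => {U | ¬ WL E ((n : ℝ) + 1) U} with hBd
  have hmeas : ∀ n, MeasurableSet (Bd n) := fun n => (msw d M E ((n : ℝ) + 1)).compl
  have hanti : Antitone Bd := by
    intro m n hmn U hU hW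
    refine hU fun D => wld_mono (by positivity) ?_ (hW D)
    have : (m : ℝ) ≤ n := by exact_mod_cast hmn
    linarith
  have hinter : ⋂ n, Bd n ⊆ ⋃ D : Finset (Tor d M), Sg E D := by
    intro U hU
    by_contra hcon
    simp only [Set.mem_iUnion, not_exists] at hcon
    have h1 : ∀ D : Finset (Tor d M), ∃ L : ℕ, WLD E L U D := by
      intro D
      have := hcon D
      simpa [Sg] using this
    choose F hF using h1
    have h2 := Set.mem_iInter.1 hU (Finset.univ.sup F)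
    refine h2 fun D => wld_mono (Nat.cast_nonneg _) ?_ (hF D)
    have h3 : F D ≤ Finset.univ.sup F := Finset.le_sup (Finset.mem_univ D)
    have h4 : (F D : ℝ) ≤ ((Finset.univ.sup F : ℕ) : ℝ) := by exact_mod_cast h3
    linarith
  have hz : gau d M v (⋂ n, Bd n) = 0 := by
    refine measure_mono_null hinter ?_
    rw [measure_iUnion_null_iff]
    exact fun D => sg_null E v hv D
  have ht := tendsto_measure_iInter_atTop (μ := gau d M v) (fun n => (hmeas n).nullMeasurableSet)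
    hanti ⟨0, measure_ne_top _ _⟩
  rw [hz] at ht
  have hev : ∀ᶠ n in Filter.atTop, gau d M v (Bd n) < ENNReal.ofReal δ :=
    ht.eventually (gt_mem_nhds (ENNReal.ofReal_pos.2 hδ))
  obtain ⟨n, hn⟩ := hev.exists
  exact ⟨(n : ℝ) + 1, by have : (0 : ℝ) ≤ n := Nat.cast_nonneg n
                         linarith, hn.le⟩

end Pool.Agent.AND2B.H99
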