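import Pool.Agent.AND2B.Stmts
import Pool.Agent.Helper14_HSL.HSC
import Pool.Agent.Helper63_ANR.GRN
import Pool.Agent.Helper99_AND2B.WLP

/-!
# AND2B: FLX (the dead sites have no effect)
-/

set_option autoImplicit false

open MeasureTheory ProbabilityTheory

open scoped BigOperators NNReal ENNReal Matrix Topology ComplexConjugate

noncomputable section

namespace Pool.Agent.AND2B.H99

open Pool.Agent.Anderson hiding box mem_box card_box
open Pool.Agent.Loc Pool.Agent.Mob Pool.Agent.Helper54.Bal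
  Pool.Agent.Helper96.EXP Pool.Agent.BED
open Pool.Agent.AND2B

variable {d M : ℕ} [NeZero M]

theorem adj_sym (x y : Tor d M) : adj d M x y = adj d M y x := by
  unfold adj
  simp only [Matrix.of_apply]
  refine Finset.sum_congr rfl fun i _ => ?_
  rw [add_comm]
  congr 1
  · have : (y = x - ev i) ↔ (x = y + ev i) := by
      constructor
      · rintro rfl; abel
      · rintro rfl; abel
    simp only [this]
  · have : (y = x + ev i) ↔ (x = y - ev i) := by
      constructor
      · rintro rfl; abel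
      · rintro rfl; abel
    simp only [this]

theorem hr_sym (V : Tor d M → ℝ) (E : ℝ) (x y : Tor d M) : Hr V E x y = Hr V E y x := by
  unfold Hr
  rw [Matrix.add_apply, Matrix.add_apply, adj_sym x y]
  congr 1
  by_cases h : x = y
  · rw [h]
  · rw [Matrix.diagonal_apply_ne _ h, Matrix.diagonal_apply_ne _ (Ne.symm h)]

theorem adj_nonneg (x y : Tor d M) : 0 ≤ adj d M x y := by
  unfold adj
  rw [Matrix.of_apply]
  refine Finset.sum_nonneg fun i _ => ?_
  split_ifs <;> norm_num

theorem adj_row (x : Tor d M) : ∑ y, adj d M x y = 2 * d := by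
  unfold adj
  simp only [Matrix.of_apply]
  rw [Finset.sum_comm]
  simp only [Finset.sum_add_distrib, Finset.sum_ite_eq', Finset.mem_univ, if_true]
  simp
  ring

/-- the squared norm -/
def nm (u : Tor d M → ℂ) : ℝ := ∑ x, ‖u x‖ ^ 2

lemma nm_nonneg (u : Tor d M → ℂ) : 0 ≤ nm u := Finset.sum_nonneg fun _ _ => sq_nonneg _

theorem adj_nm (u : Tor d M → ℂ) :
    ∑ x, ‖∑ y, (adj d M x y : ℂ) * u y‖ ^ 2 ≤ (2 * (d : ℝ)) ^ 2 * nm u := by
  have h1 : ∀ x, ‖∑ y, (adj d M x y : ℂ) * u y‖ ^ 2 ≤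
      (2 * (d : ℝ)) * ∑ y, adj d M x y * ‖u y‖ ^ 2 := by
    intro x
    have h2 : ‖∑ y, (adj d M x y : ℂ) * u y‖ ≤ ∑ y, adj d M x y * ‖u y‖ := by
      refine (norm_sum_le _ _).trans (le_of_eq ?_)
      refine Finset.sum_congr rfl fun y _ => ?_
      rw [norm_mul, Complex.norm_real, Real.norm_of_nonneg (adj_nonneg x y)]
    have h3 : (∑ y, adj d M x y * ‖u y‖) ^ 2 ≤
        (∑ y, adj d M x y) * ∑ y, adj d M x y * ‖u y‖ ^ 2 := by
      have h4 := Finset.sum_mul_sq_le_sq_mul_sq Finset.univ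
        (fun y => Real.sqrt (adj d M x y)) (fun y => Real.sqrt (adj d M x y) * ‖u y‖)
      have h5 : ∀ y, Real.sqrt (adj d M x y) * (Real.sqrt (adj d M x y) * ‖u y‖) =
          adj d M x y * ‖u y‖ := by
        intro y
        rw [← mul_assoc, Real.mul_self_sqrt (adj_nonneg x y)]
      have h6 : ∀ y, Real.sqrt (adj d M x y) ^ 2 = adj d M x y := fun y =>
        Real.sq_sqrt (adj_nonneg x y)
      have h7 : ∀ y, (Real.sqrt (adj d M x y) * ‖u y‖) ^ 2 = adj d M x y * ‖u y‖ ^ 2 := by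
        intro y
        rw [mul_pow, h6]
      simp only [h5, h6, h7] at h4
      exact h4
    rw [adj_row] at h3
    exact (pow_le_pow_left₀ (norm_nonneg _) h2 2).trans h3
  refine (Finset.sum_le_sum fun x _ => h1 x).trans ?_
  rw [← Finset.mul_sum, Finset.sum_comm]
  have h8 : ∑ y, ∑ x, adj d M x y * ‖u y‖ ^ 2 = 2 * (d : ℝ) * nm u := by
    unfold nm
    rw [Finset.mul_sum]
    refine Finset.sum_congr rfl fun y _ => ?_
    rw [← Finset.sum_mul]
    congr 1
    rw [← adj_row y]
    exact Finset.sum_congr rfl fun x _ => adj_sym x y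
  rw [h8]
  exact le_of_eq (by ring)

lemma sum3 (D : Finset (Tor d M)) (a b c : Tor d M → ℂ) :
    ∑ x ∈ D, ‖a x + b x + c x‖ ^ 2 ≤ 3 * (∑ x ∈ D, ‖a x‖ ^ 2 + ∑ x ∈ D, ‖b x‖ ^ 2 +
      ∑ x ∈ D, ‖c x‖ ^ 2) := by
  rw [← Finset.sum_add_distrib, ← Finset.sum_add_distrib, Finset.mul_sum]
  refine Finset.sum_le_sum fun x _ => ?_
  have h := norm_add₃_le (a := a x) (b := b x) (c := c x)
  have h0 := norm_nonneg (a x + b x + c x)
  have h2 := pow_le_pow_left₀ h0 h 2
  refine h2.trans ?_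
  nlinarith [sq_nonneg (‖a x‖ - ‖b x‖), sq_nonneg (‖a x‖ - ‖c x‖), sq_nonneg (‖b x‖ - ‖c x‖)]

theorem flx : FlxStmt := by
  intro d
  refine ⟨56 + 96 * (d : ℝ) ^ 2, by nlinarith [sq_nonneg (d : ℝ)], ?_⟩
  intro M _ V k E L e₀ kv D hL he hLe hkv hkv1 hkD hkA hW
  have hk : ∀ x, 0 < k x := by
    intro x
    by_cases hx : x ∈ D
    · rw [hkD x hx]; exact he
    · exact hkv.trans_le (hkA x hx)
  have hN : ANR.Net (Hr V E) k := ⟨hr_sym V E, hk⟩
  have hU := HSL14.mat_unit hN
  set K : ℝ := 56 + 96 * (d : ℝ) ^ 2 with hK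
  have hd2 : 0 ≤ (d : ℝ) ^ 2 := sq_nonneg _
  have hL0 : 0 < L := by linarith
  -- the equation
  have heq : ∀ f : Tor d M → ℂ, ∀ x, ANR.opv (Hr V E) k (fun x => ∑ y, res V E k x y * f y) x =
      f x := by
    intro f x
    have h1 : HSL14.mat (Hr V E) k * res V E k = 1 := by
      unfold res
      rw [HSL14.gr_eq]
      exact Matrix.mul_nonsing_inv _ hU
    have h2 : HSL14.mat (Hr V E) k *ᵥ (res V E k *ᵥ f) = f := by
      rw [Matrix.mulVec_mulVec, h1, Matrix.one_mulVec]
    have h3 := congrFun h2 x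
    have h4 : (HSL14.mat (Hr V E) k *ᵥ (res V E k *ᵥ f)) x =
        ANR.opv (Hr V E) k (fun x => ∑ y, res V E k x y * f y) x := by
      unfold ANR.opv HSL14.mat
      rw [Matrix.sub_mulVec, Pi.sub_apply, Matrix.mulVec_diagonal]
      rfl
    rw [← h4, h3]
  -- the bound
  have hmain : ∀ f : Tor d M → ℂ, nm (fun x => ∑ y, res V E k x y * f y) ≤
      (K * L ^ 2 / kv) ^ 2 * nm f := by
    intro f
    set u : Tor d M → ℂ := fun x => ∑ y, res V E k x y * f y with hu
    have he1 : ∀ x, ANR.opv (Hr V E) k u x = f x := heq f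
    set uD : Tor d M → ℂ := fun x => if x ∈ D then u x else 0 with huD
    set uA : Tor d M → ℂ := fun x => if x ∈ D then 0 else u x with huA
    have hsplit : nm u = nm uD + nm uA := by
      unfold nm
      rw [← Finset.sum_add_distrib]
      refine Finset.sum_congr rfl fun x _ => ?_
      by_cases hx : x ∈ D <;> simp [huD, huA, hx]
    have hDs : nm uD = ∑ x ∈ D, ‖uD x‖ ^ 2 := by
      unfold nm
      symm
      refine Finset.sum_subset (Finset.subset_univ D) fun x _ hx => ?_
      simp [huD, hx]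
    have hWu := hW uD (fun x hx => by simp [huD, hx])
    have hrow : ∀ x ∈ D, ∑ y, (Hr V E x y : ℂ) * uD y =
        f x + Complex.I * (e₀ : ℂ) * uD x + (- ∑ y, (adj d M x y : ℂ) * uA y) := by
      intro x hx
      have h1 := he1 x
      unfold ANR.opv at h1
      rw [hkD x hx] at h1
      have h2 : ∑ y, (Hr V E x y : ℂ) * u y = ∑ y, (Hr V E x y : ℂ) * uD y +
          ∑ y, (Hr V E x y : ℂ) * uA y := by
        rw [← Finset.sum_add_distrib]
        refine Finset.sum_congr rfl fun y _ => ?_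
        by_cases hy : y ∈ D <;> simp [huD, huA, hy]
      have h3 : ∑ y, (Hr V E x y : ℂ) * uA y = ∑ y, (adj d M x y : ℂ) * uA y := by
        rw [hr_mul]
        simp [huA, hx]
      have h4 : uD x = u x := by simp [huD, hx]
      rw [h2, h3] at h1
      rw [h4]
      linear_combination h1
    have hb : ∑ x ∈ D, ‖∑ y, (Hr V E x y : ℂ) * uD y‖ ^ 2 ≤
        3 * (nm f + e₀ ^ 2 * nm uD + (2 * (d : ℝ)) ^ 2 * nm uA) := by
      rw [Finset.sum_congr rfl fun x hx => by rw [hrow x hx]]
      refine (sum3 D _ _ _).trans ?_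
      refine mul_le_mul_of_nonneg_left ?_ (by norm_num)
      refine add_le_add (add_le_add ?_ ?_) ?_
      · exact Finset.sum_le_sum_of_subset_of_nonneg (Finset.subset_univ D)
          fun _ _ _ => sq_nonneg _
      · rw [hDs, Finset.mul_sum]
        refine Finset.sum_le_sum fun x _ => le_of_eq ?_
        rw [norm_mul, norm_mul, Complex.norm_I, one_mul, Complex.norm_real,
          Real.norm_of_nonneg he.le, mul_pow]
      · refine le_trans ?_ (adj_nm uA)
        refine (Finset.sum_le_sum_of_subset_of_nonneg (Finset.subset_univ D)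
          fun _ _ _ => sq_nonneg _).trans (le_of_eq ?_)
        refine Finset.sum_congr rfl fun x _ => ?_
        rw [norm_neg]
    rw [← hDs] at hWu
    have hc1 : nm uD ≤ L ^ 2 * (3 * (nm f + e₀ ^ 2 * nm uD + (2 * (d : ℝ)) ^ 2 * nm uA)) :=
      hWu.trans (mul_le_mul_of_nonneg_left hb (sq_nonneg L))
    have hLe2 : L ^ 2 * e₀ ^ 2 ≤ 1 / 4 := by
      have h1 : 0 ≤ L * e₀ := by positivity
      have h2 : L * e₀ ≤ 1 / 2 := by linarith
      calc L ^ 2 * e₀ ^ 2 = (L * e₀) ^ 2 := by ring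
        _ ≤ (1 / 2) ^ 2 := pow_le_pow_left₀ h1 h2 2
        _ = 1 / 4 := by norm_num
    have hc2 : nm uD ≤ 12 * L ^ 2 * nm f + 48 * (d : ℝ) ^ 2 * L ^ 2 * nm uA := by
      have h1 := mul_le_mul_of_nonneg_right hLe2 (nm_nonneg uD)
      nlinarith [h1]
    -- the imaginary part
    have him := (ANR.H63.grn (Tor d M) (Hr V E) k hN).2 u
    have him2 : ∑ x, k x * ‖u x‖ ^ 2 ≤ Real.sqrt (nm u) * Real.sqrt (nm f) := by
      have h1 : ∑ x, k x * ‖u x‖ ^ 2 = -(∑ x, conj (u x) * f x).im := by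
        rw [← neg_eq_iff_eq_neg.2 him]
        simp only [he1]
      rw [h1]
      have h2 : -(∑ x, conj (u x) * f x).im ≤ ‖∑ x, conj (u x) * f x‖ :=
        (neg_le_abs _).trans (Complex.abs_im_le_norm _)
      refine h2.trans ((norm_sum_le _ _).trans ?_)
      have h3 : ∀ x, ‖conj (u x) * f x‖ = ‖u x‖ * ‖f x‖ := by
        intro x
        rw [norm_mul, Complex.norm_conj]
      rw [Finset.sum_congr rfl fun x _ => h3 x]
      unfold nm
      exact Real.sum_mul_le_sqrt_mul_sqrt _ _ _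
    have him3 : kv * nm uA ≤ Real.sqrt (nm u) * Real.sqrt (nm f) := by
      refine le_trans ?_ him2
      unfold nm
      rw [Finset.mul_sum]
      refine Finset.sum_le_sum fun x _ => ?_
      by_cases hx : x ∈ D
      · simp only [huA, hx, if_true]
        have := mul_nonneg (hk x).le (sq_nonneg ‖u x‖)
        simpa using this
      · simp only [huA, hx, if_false]
        exact mul_le_mul_of_nonneg_right (hkA x hx) (sq_nonneg _)
    -- conclusion
    set n := Real.sqrt (nm u) with hn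
    set F := Real.sqrt (nm f) with hF
    have hn2 : nm u = n ^ 2 := (Real.sq_sqrt (nm_nonneg u)).symm
    have hF2 : nm f = F ^ 2 := (Real.sq_sqrt (nm_nonneg f)).symm
    have hn0 : 0 ≤ n := Real.sqrt_nonneg _
    have hF0 : 0 ≤ F := Real.sqrt_nonneg _
    have hA0 := nm_nonneg uA
    set a := L ^ 2 / kv with ha
    have ha1 : L ^ 2 ≤ a := by
      rw [ha, le_div_iff₀ hkv]
      nlinarith [sq_nonneg L]
    have hL2 : 1 ≤ L ^ 2 := by nlinarith
    have haA : L ^ 2 * nm uA ≤ a * (n * F) := by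
      have : L ^ 2 * nm uA = a * (kv * nm uA) := by
        rw [ha]
        field_simp
      rw [this]
      exact mul_le_mul_of_nonneg_left him3 (by positivity)
    have hq : n ^ 2 ≤ 12 * L ^ 2 * F ^ 2 + (1 + 48 * (d : ℝ) ^ 2) * (a * (n * F)) := by
      have h1 : nm uA ≤ L ^ 2 * nm uA := by nlinarith
      have h2 : n ^ 2 ≤ 12 * L ^ 2 * F ^ 2 + 48 * (d : ℝ) ^ 2 * (L ^ 2 * nm uA) + nm uA := by
        rw [← hn2, hsplit, ← hF2]
        nlinarith [hc2]
      have h3 : 48 * (d : ℝ) ^ 2 * (L ^ 2 * nm uA) ≤ 48 * (d : ℝ) ^ 2 * (a * (n * F)) :=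
        mul_le_mul_of_nonneg_left haA (by positivity)
      nlinarith
    have hb2 : 12 * L ^ 2 * F ^ 2 ≤ 12 * (a * F) ^ 2 := by
      have h1 : L ^ 2 ≤ a ^ 2 := by nlinarith
      have h2 := mul_le_mul_of_nonneg_right h1 (sq_nonneg F)
      nlinarith
    have hfin : n ≤ K * (a * F) := by
      by_contra hcon
      push Not at hcon
      have hb0 : 0 ≤ a * F := by positivity
      have h1 : a * F ≤ n := by nlinarith
      have hnpos : 0 < n := lt_of_le_of_lt (by positivity) hcon
      have h2 : K * (a * F) * n < n * n := mul_lt_mul_of_pos_right hcon hnpos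
      have h3 : (a * F) ^ 2 ≤ (a * F) * n := by nlinarith
      have h4 : (1 + 48 * (d : ℝ) ^ 2) * (a * (n * F)) + 12 * ((a * F) * n) ≤
          K * (a * F) * n := by
        have : 0 ≤ (a * F) * n := mul_nonneg hb0 hn0
        rw [hK]
        nlinarith [mul_nonneg hd2 this]
      nlinarith
    rw [hn2, hF2]
    calc n ^ 2 ≤ (K * (a * F)) ^ 2 := pow_le_pow_left₀ hn0 hfin 2
      _ = (K * L ^ 2 / kv) ^ 2 * F ^ 2 := by
          rw [ha]
          ring
  refine ⟨fun u => hmain u, fun x => ?_⟩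
  have h1 : ∀ b ∈ D, k b * ‖res V E k x b‖ ^ 2 = e₀ * ‖res V E k x b‖ ^ 2 := fun b hb => by
    rw [hkD b hb]
  rw [Finset.sum_congr rfl h1, ← Finset.mul_sum]
  refine mul_le_mul_of_nonneg_left ?_ he.le
  have h2 := hmain (Pi.single x 1)
  have h3 : nm (Pi.single x (1 : ℂ)) = 1 := by
    unfold nm
    rw [Finset.sum_eq_single x]
    · simp
    · intro y _ hy
      simp [Pi.single_eq_of_ne hy]
    · simp
  have h4 : (fun z => ∑ y, res V E k z y * (Pi.single x (1 : ℂ) : Tor d M → ℂ) y) =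
      fun z => res V E k z x := by
    funext z
    rw [Finset.sum_eq_single x]
    · simp
    · intro y _ hy
      simp [Pi.single_eq_of_ne hy]
    · simp
  rw [h3, h4, mul_one] at h2
  refine le_trans ?_ h2
  unfold nm
  refine (Finset.sum_le_sum_of_subset_of_nonneg (Finset.subset_univ D)
    fun _ _ _ => sq_nonneg _).trans (le_of_eq ?_)
  refine Finset.sum_congr rfl fun b _ => ?_
  have h5 : res V E k x b = res V E k b x := HSL14.gr_sym (hr_sym V E) k x b
  rw [h5]

end Pool.Agent.AND2B.H99
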