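import Pool.Agent.AHH.Z
import Pool.Agent.Helper72_AND2B.OutF

/-!
# AND2B: the field `out`
-/

set_option autoImplicit false

open MeasureTheory ProbabilityTheory

open scoped BigOperators NNReal ENNReal Matrix

noncomputable section

namespace Pool.Agent.AHH.H99

open Pool.Agent.BED (Tor gau)
open Pool.Agent.ANE (SolT)
open Pool.Agent.ANP
open Pool.Agent.AND2B (FF WL Scal sg cl Viol net Prd Ev)
open Pool.Agent.AHH

theorem solT_mono {d M : ℕ} [NeZero M] {E A e e' : ℝ} {R : ℕ} {U : Tor d M → ℝ} (he : 0 ≤ e)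
    (h : e ≤ e') (hU : SolT d M E A e R U) : SolT d M E A e' R U := by
  obtain ⟨v, h1, h2, h3⟩ := hU
  exact ⟨v, h1, h2.trans (pow_le_pow_left₀ he h 2), h3⟩

theorem win_mono {X : Type} [Fintype X] {F F' : Set (X → ℝ)} {a : X → ℝ} {r : X → ℝ≥0} {e : ℝ}
    (h : F ⊆ F') (hW : Win F' a r e) : Win F a r e := by
  unfold Win gm at *
  refine le_trans ?_ hW
  refine measureReal_mono h ?_
  exact measure_ne_top _ _

theorem goodF {d : ℕ} (V : AND2B.Env d) {es' c C : ℝ} (hC : 1 ≤ C)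
    (hm : ANI.Start2 d (2 ^ V.μ) V.E V.e₀ V.w es' V.m V.ζ c C) {n k : ℕ}
    (T : Cfg V.X) (run : Finset V.X) (h0 : 0 ∈ run)
    (h : St (toE V c C) (bud V) n k T run) (hdel : gr V (1 / 20) n k ≤ c / 2) (hc' : c ≤ 1 / 2) :
    AND2B.H72.GoodF (c / 2) (2 * C) (c / 2) V.E V.e₀ T run := by
  have hS := h.toStN
  have h0A : (0 : V.X) ∈ Al T := hS.alv h0
  have hG : ∀ x ∈ run, ‖net V.E V.e₀ T x 0 - LE.QD.rs (0 : Tor d (2 ^ V.μ) → ℝ) V.ζ x 0‖ ≤ c / 2 :=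
    fun x hx => (hS.ent x (hS.alv hx) 0 h0A).trans hdel
  refine ⟨fun x hx => ?_, fun x hx => ?_, ?_⟩
  · have h1 := hS.gau x (hS.alv hx)
    exact ⟨h1.1, h1.2.1⟩
  · have h1 := hG x hx
    have h2 := hm.hG x 0
    have h3 : ‖net V.E V.e₀ T x 0‖ ≤ ‖net V.E V.e₀ T x 0 -
        LE.QD.rs (0 : Tor d (2 ^ V.μ) → ℝ) V.ζ x 0‖ +
        ‖LE.QD.rs (0 : Tor d (2 ^ V.μ) → ℝ) V.ζ x 0‖ := by
      have := norm_add_le (net V.E V.e₀ T x 0 - LE.QD.rs (0 : Tor d (2 ^ V.μ) → ℝ) V.ζ x 0)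
        (LE.QD.rs (0 : Tor d (2 ^ V.μ) → ℝ) V.ζ x 0)
      rwa [sub_add_cancel] at this
    linarith
  · have h1 := hG 0 h0
    have h2 := hm.hm 0
    have h3 := hm.hc.1
    rw [h2] at h1
    have h4 : |(net V.E V.e₀ T 0 0 - V.m).im| ≤ c / 2 := (Complex.abs_im_le_norm _).trans h1
    rw [Complex.sub_im] at h4
    have := (abs_le.1 h4).1
    linarith

/-- THE FIELD `out` -/
theorem outF : OutF := by
  intro d a c C hd ha hc hc' hC
  obtain ⟨w₀, hw₀, hw₀'⟩ : ∃ w₀ : ℝ, 0 < w₀ ∧ ∀ w : ℝ, 0 < w → w ≤ w₀ →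
      3 * w ^ (1 / 20 : ℝ) ≤ c / 2 := by
    refine ⟨(c / 6) ^ (20 : ℝ), by positivity, fun w hw hw' => ?_⟩
    have h1 : w ^ (1 / 20 : ℝ) ≤ ((c / 6) ^ (20 : ℝ)) ^ (1 / 20 : ℝ) :=
      Real.rpow_le_rpow hw.le hw' (by norm_num)
    rw [← Real.rpow_mul (by positivity)] at h1
    norm_num at h1
    linarith
  refine ⟨1, 1, one_pos, one_pos, ?_⟩
  intro th c₁ hth1 _ hth2 _ _ C₁ α J _
  refine ⟨1, w₀, one_pos, hw₀, ?_⟩
  intro β w E _ _ hw hw' _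
  obtain ⟨ε₀, hε₀, H⟩ := AND2B.H72.out_field d (c₀ := c / 2) (C₀ := 2 * C) (b := c / 2)
    (by positivity) (by linarith) (by positivity)
  refine ⟨ε₀, hε₀, fun ε hε hε' A R => ?_⟩
  obtain ⟨t₀, ht₀, _, H⟩ := H A R
  refine ⟨t₀, ht₀, fun t _ ht' N μ kk l r Kn Dn hS L _ => ?_⟩
  have hth0 : 0 < th := lt_of_lt_of_le (by norm_num) hth1
  have hsg : 0 < sg w th kk (N + 1) := by
    unfold sg cl
    push_cast
    have : (0 : ℝ) < w := by exact_mod_cast hw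
    have : (0 : ℝ) < th := by exact_mod_cast hth0
    positivity
  refine ⟨sg w th kk (N + 1) ^ 2, by positivity, fun e₀ he₀ he₀' m ζ hm => ?_⟩
  intro T run a' r' _ hHS hFc h0 hfar hag
  have hS' : Scal d th c₁ C₁ α J β w t₀ N μ kk l r Kn Dn := { hS with fin := hS.fin.trans ht' }
  have hgood := goodF (⟨th, c₁, C₁, α, J, β, w, E, ε, A, R, t, N, μ, kk, l, r, Kn, Dn, L, e₀, m, ζ⟩ :
    AND2B.Env d) hC hm T run h0 hHS
    ((gr_bd _ (by exact_mod_cast hth2.le) (by norm_num) _ _).2.trans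
      (hw₀' w (by exact_mod_cast hw) hw')) hc'
  have h1 := H th c₁ C₁ α J β w N μ kk l r Kn Dn hth0 hw hS' E L e₀ he₀ he₀' T run a' r' hFc h0
    hfar hag (Or.inr hgood)
  refine win_mono ?_ h1
  rintro U ⟨g1, g2⟩
  exact ⟨g1, solT_mono hε.le hε' g2⟩

end Pool.Agent.AHH.H99
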